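import Pool.Agent.Helper71.HN.SheetE

/-! Project HE (MP_2a8cc2_nt), row HTT: heights in `K` and sizes in `M`. -/

set_option autoImplicit false

namespace Pool.Agent.Helper44.HE

open Finset Pool.Agent.Helper70.SUB Pool.Agent.Helper77.SUBK Pool.Agent.Helper71.JN
  Pool.Agent.Helper71.HZ Pool.Agent.Helper71.HE

/-- the `p`-adic absolute value of a positive integer is not too small -/
theorem padic_lb {p D : ℕ} (hp : p.Prime) (hD : D ≠ 0) : 1 ≤ (D : ℝ) * av (some p) (D : ℚ) := by
  have : Fact p.Prime := ⟨hp⟩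
  change (1 : ℝ) ≤ (D : ℝ) * ((padicNorm p ((D : ℕ) : ℚ) : ℚ) : ℝ)
  have h0 : ((D : ℕ) : ℚ) ≠ 0 := by exact_mod_cast hD
  rw [padicNorm.eq_zpow_of_nonzero h0, padicValRat.of_nat, zpow_neg, zpow_natCast]
  have h1 : p ^ padicValNat p D ≤ D := Nat.le_of_dvd (Nat.pos_of_ne_zero hD) pow_padicValNat_dvd
  have h2 : (0 : ℝ) < (p : ℝ) ^ padicValNat p D := by
    have : (0 : ℝ) < p := by exact_mod_cast hp.pos
    positivity
  have h3 : ((p : ℝ) ^ padicValNat p D) ≤ D := by exact_mod_cast h1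
  push_cast
  rw [← div_eq_mul_inv, le_div_iff₀ h2, one_mul]
  exact h3

theorem HTT (hAV : ST_AV) (hDEN : ST_DEN) (hHTK : ST_HTK) (hEMB : ST_EMB) : ST_HTT := by
  intro K M _ _ _ _ _ h i S P hh hS
  classical
  obtain ⟨h0, h1, h2, h3⟩ := hHTK K h hh
  obtain ⟨n, hn⟩ : ∃ n : ℝ, n = (Module.finrank ℚ K : ℝ) := ⟨_, rfl⟩
  have hn1 : 1 ≤ n := by
    rw [hn]
    have h4 : 0 < Module.finrank ℚ K := Module.finrank_pos
    exact_mod_cast h4
  rw [← hn] at h1 h2
  obtain ⟨k, hk⟩ : ∃ k : ℝ, k = (Fintype.card (Pl S M) : ℝ) := ⟨_, rfl⟩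
  have hk0 : 0 ≤ k := by rw [hk]; positivity
  obtain ⟨s, hs⟩ : ∃ s : ℝ, s = (S.card : ℝ) := ⟨_, rfl⟩
  have hs0 : 0 ≤ s := by rw [hs]; positivity
  obtain ⟨Q, hQ⟩ : ∃ Q : ℝ, Q = ∏ p ∈ S, (p : ℝ) := ⟨_, rfl⟩
  have hQ1 : 1 ≤ Q := by
    rw [hQ]
    calc (1 : ℝ) = ∏ _p ∈ S, (1 : ℝ) := Finset.prod_const_one.symm
      _ ≤ _ := Finset.prod_le_prod (fun _ _ => zero_le_one) fun p hp => by
        exact_mod_cast (hS p hp).one_lt.le
  have hLQ : 0 ≤ Real.log Q := Real.log_nonneg hQ1
  -- embeddings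
  have hemb : ∀ (a : K) (σ : M ≃ₐ[ℚ] M), P.nv none (σ (i a)) ≤ Real.exp (n * h a) := by
    intro a σ
    rw [P.inf]
    exact h2 a ((P.emb.comp (σ : M →+* M)).comp i)
  -- finite places
  have hfin : ∀ (a : K) (v : Option ℕ), v ∈ plc S → ∀ σ : M ≃ₐ[ℚ] M,
      P.nv v (σ (i a)) ≤ Real.exp (n * h a) := by
    intro a v hv σ
    cases v with
    | none => exact hemb a σ
    | some p =>
      have hp := of_mem_some hv
      obtain ⟨D, hD0, hD1, hD2⟩ := h1 a
      have h4 : IsIntegral ℤ ((D : M) * σ (i a)) := by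
        have h5 : (D : M) * σ (i a) = (((σ : M →+* M).comp i)) ((D : K) * a) := by
          rw [map_mul, map_natCast]
          rfl
        rw [h5]
        exact map_isIntegral_int _ hD2
      have h5 := P.integral_le hAV hS hp h4
      rw [P.mul _ hv, P.natCast hv] at h5
      have h6 := padic_lb (hS p hp) hD0
      have h7 : 0 ≤ P.nv (some p) (σ (i a)) := P.nn _ _
      have h8 : (0 : ℝ) ≤ D := Nat.cast_nonneg _
      calc P.nv (some p) (σ (i a)) = 1 * P.nv (some p) (σ (i a)) := (one_mul _).symm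
        _ ≤ ((D : ℝ) * av (some p) (D : ℚ)) * P.nv (some p) (σ (i a)) :=
          mul_le_mul_of_nonneg_right h6 h7
        _ = (D : ℝ) * (av (some p) (D : ℚ) * P.nv (some p) (σ (i a))) := mul_assoc _ _ _
        _ ≤ (D : ℝ) * 1 := mul_le_mul_of_nonneg_left h5 h8
        _ = D := mul_one _
        _ ≤ _ := hD1
  have hterm0 : ∀ (a : K) (j : Pl S M), 0 ≤ Real.log (max 1 (P.nv j.1 (j.2 (i a)))) :=
    fun a j => Real.log_nonneg (le_max_left _ _)
  have hLam0 : ∀ a : K, 0 ≤ LamP P (i a) := fun a => Finset.sum_nonneg fun j _ => hterm0 a j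
  have hterm : ∀ (a : K) (j : Pl S M), Real.log (max 1 (P.nv j.1 (j.2 (i a)))) ≤
      LamP P (i a) := fun a j =>
    Finset.single_le_sum (f := fun j : Pl S M => Real.log (max 1 (P.nv j.1 (j.2 (i a)))))
      (fun j _ => hterm0 a j) (Finset.mem_univ j)
  refine ⟨2 + 2 * Real.log Q + 2 * s + n + k * n, ?_, h0, ?_, ?_, ?_⟩
  · have := mul_nonneg hk0 (by linarith : (0 : ℝ) ≤ n)
    linarith
  · intro a
    have hmono : Real.exp (n * h a) ≤
        Real.exp ((2 + 2 * Real.log Q + 2 * s + n + k * n) * h a) := by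
      refine Real.exp_le_exp.2 (mul_le_mul_of_nonneg_right ?_ (h0 a))
      have := mul_nonneg hk0 (by linarith : (0 : ℝ) ≤ n)
      linarith
    obtain ⟨D, hD0, hD1, hD2⟩ := h1 a
    refine ⟨⟨D, hD0, hD1.trans hmono, ?_⟩, fun σ => ?_⟩
    · have h5 : (D : M) * i a = i ((D : K) * a) := by
        rw [map_mul, map_natCast]
      rw [h5]
      exact map_isIntegral_int _ hD2
    · have h6 := hemb a σ
      rw [P.inf] at h6
      exact h6.trans hmono
  · intro a
    have h4 : LamP P (i a) ≤ k * (n * h a) := by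
      calc LamP P (i a) ≤ ∑ _j : Pl S M, n * h a := by
            refine Finset.sum_le_sum fun j _ => ?_
            have h5 := hfin a j.1 j.1.2 j.2
            have h6 : 0 ≤ n * h a := mul_nonneg (by linarith) (h0 a)
            calc Real.log (max 1 (P.nv j.1 (j.2 (i a)))) ≤ Real.log (Real.exp (n * h a)) := by
                  refine Real.log_le_log (lt_max_of_lt_left one_pos) (max_le ?_ h5)
                  exact Real.one_le_exp h6
              _ = n * h a := Real.log_exp _
        _ = k * (n * h a) := by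
            rw [Finset.sum_const, nsmul_eq_mul, Finset.card_univ, hk]
    refine h4.trans ?_
    rw [← mul_assoc]
    refine mul_le_mul_of_nonneg_right ?_ (h0 a)
    linarith
  · intro a m hm hz
    obtain ⟨L, hL⟩ : ∃ L : ℝ, L = LamP P (i a) := ⟨_, rfl⟩
    have hL0 : 0 ≤ L := by rw [hL]; exact hLam0 a
    obtain ⟨hd, -⟩ := hDEN M S P hS
    obtain ⟨n', hn', hnle, hint⟩ := hd (Real.exp L) (Real.one_le_exp hL0)
    have h4 : IsIntegral ℤ ((n' : M) * ((m : M) * i a)) := by
      refine hint _ hz fun p hp σ => ?_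
      have hv := mem_some hp
      have h5 : σ ((m : M) * i a) = (m : M) * σ (i a) := by rw [map_mul, map_natCast]
      rw [h5, P.mul _ hv]
      have h6 : P.nv (some p) (m : M) ≤ 1 := by
        have h7 := P.int_le hAV hS hp (m : ℤ)
        rwa [Int.cast_natCast] at h7
      have h7 : P.nv (some p) (σ (i a)) ≤ Real.exp L := by
        have h8 := hterm a (⟨some p, hv⟩, σ)
        rw [← hL] at h8
        have h9 : (0 : ℝ) < max 1 (P.nv (some p) (σ (i a))) := lt_max_of_lt_left one_pos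
        calc P.nv (some p) (σ (i a)) ≤ max 1 (P.nv (some p) (σ (i a))) := le_max_right _ _
          _ = Real.exp (Real.log (max 1 (P.nv (some p) (σ (i a))))) := (Real.exp_log h9).symm
          _ ≤ Real.exp L := Real.exp_le_exp.2 h8
      calc P.nv (some p) (m : M) * P.nv (some p) (σ (i a)) ≤ 1 * Real.exp L :=
            mul_le_mul h6 h7 (P.nn _ _) zero_le_one
        _ = Real.exp L := one_mul _
    have h5 : IsIntegral ℤ (((n' * m : ℕ) : K) * a) := by
      have h6 : IsIntegral ℤ (i (((n' * m : ℕ) : K) * a)) := by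
        have h7 : i (((n' * m : ℕ) : K) * a) = (n' : M) * ((m : M) * i a) := by
          rw [map_mul, map_natCast]
          push_cast
          ring
        rw [h7]
        exact h4
      exact (isIntegral_algHom_iff (i.toIntAlgHom) i.injective).1 h6
    have hn0 : n' ≠ 0 := hn'.1
    have h6 := h3 a (n' * m) (Nat.mul_ne_zero hn0 hm) h5
    have h7 : ∑ τ : K →+* ℂ, Real.log (max 1 ‖τ a‖) ≤ n * L := by
      have h8 := hEMB K M i P.emb fun τ => Real.log (max 1 ‖τ a‖)
      have h9 : ∑ σ : M ≃ₐ[ℚ] M, Real.log (max 1 ‖((P.emb.comp (σ : M →+* M)).comp i) a‖) ≤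
          L := by
        have h10 : ∑ σ : M ≃ₐ[ℚ] M,
            Real.log (max 1 ‖((P.emb.comp (σ : M →+* M)).comp i) a‖) =
            ∑ j ∈ (Finset.univ : Finset (M ≃ₐ[ℚ] M)).image
              (fun σ => ((⟨none, mem_none⟩, σ) : Pl S M)),
              Real.log (max 1 (P.nv j.1 (j.2 (i a)))) := by
          rw [Finset.sum_image]
          · refine Finset.sum_congr rfl fun σ _ => ?_
            rw [P.inf]
            rfl
          · intro σ _ τ _ hst
            exact (Prod.mk.inj hst).2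
        rw [h10, hL]
        exact Finset.sum_le_sum_of_subset_of_nonneg (Finset.subset_univ _)
          fun j _ _ => hterm0 a j
      have h11 : (1 : ℝ) ≤ (Fintype.card (M ≃ₐ[ℚ] M) : ℝ) := by
        have : 0 < Fintype.card (M ≃ₐ[ℚ] M) := Fintype.card_pos
        exact_mod_cast this
      have h12 : 0 ≤ ∑ τ : K →+* ℂ, Real.log (max 1 ‖τ a‖) :=
        Finset.sum_nonneg fun τ _ => Real.log_nonneg (le_max_left _ _)
      rw [← hn] at h8
      calc ∑ τ : K →+* ℂ, Real.log (max 1 ‖τ a‖)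
          ≤ (Fintype.card (M ≃ₐ[ℚ] M) : ℝ) * ∑ τ : K →+* ℂ, Real.log (max 1 ‖τ a‖) := by
            nlinarith
        _ = n * ∑ σ : M ≃ₐ[ℚ] M,
            Real.log (max 1 ‖((P.emb.comp (σ : M →+* M)).comp i) a‖) := h8.symm
        _ ≤ n * L := mul_le_mul_of_nonneg_left h9 (by linarith)
    have hm1 : (1 : ℝ) ≤ m := by exact_mod_cast Nat.one_le_iff_ne_zero.2 hm
    have hlm : 0 ≤ Real.log m := Real.log_nonneg hm1
    have hnp : (0 : ℝ) < n' := by exact_mod_cast Nat.pos_of_ne_zero hn0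
    have h8 : Real.log ((n' * m : ℕ) : ℝ) = Real.log n' + Real.log m := by
      push_cast
      rw [Real.log_mul hnp.ne' (by linarith : (m : ℝ) ≠ 0)]
    have h9 : Real.log n' ≤ Real.log Q + s * L := by
      calc Real.log n' ≤ Real.log (Q * Real.exp L ^ S.card) := by
            refine Real.log_le_log hnp ?_
            rw [hQ]
            exact hnle
        _ = Real.log Q + s * L := by
            rw [Real.log_mul (by linarith : Q ≠ 0) (pow_pos (Real.exp_pos L) _).ne', Real.log_pow,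
              Real.log_exp, hs]
    rw [h8] at h6
    rw [← hL]
    have h10 : h a ≤ 2 * Real.log Q + 2 * (s * L) + 2 * Real.log m + n * L := by linarith
    refine h10.trans ?_
    have e1 := mul_nonneg hLQ hlm
    have e2 := mul_nonneg hLQ hL0
    have e3 := mul_nonneg hs0 hlm
    have e4 := mul_nonneg (by linarith : (0 : ℝ) ≤ n) hlm
    have e5 := mul_nonneg (mul_nonneg hk0 (by linarith : (0 : ℝ) ≤ n))
      (by linarith : (0 : ℝ) ≤ Real.log m + L + 1)
    nlinarith

end Pool.Agent.Helper44.HE
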